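import Pool.Agent.Y588.PR.Fin
import Pool.Agent.Y588.PR.Meas

/-!
# The exact strength of the asymmetric polarized relation under the local continuum hypothesis

Let `λ` be an infinite cardinal with `2 ^ λ = λ⁺`. For which ordinals `α` does every colouring
`c : λ⁺ × λ → {0, 1}` have a homogeneous rectangle of colour `0` of type `λ⁺ × λ` or a homogeneous
rectangle of colour `1` of type `α × λ`?

* If `λ` has uncountable cofinality (singular or regular, no large cardinals are needed), exactly
  for the finite `α`.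
* If `λ` is a strong limit cardinal of cofinality `ω`, for all countable `α` (in fact without
  `2 ^ λ = λ⁺`), and for no `α ≥ (2 ^ ℵ₀)⁺`.

In particular the relation fails for some `α < λ` if `λ` is a singular limit of measurable cardinals
with `2 ^ λ = λ⁺`.

Proof. Negative part: `A_γ = {z_γ(β) : β < γ}`, where `z_γ(β)` belongs to the `β`-th subset of `λ`
of size `λ` and avoids few points which are prescribed by earlier sets, depending on a function
`d : [λ⁺]² → cf λ` with small fibres; infinitely many sets on whose indices `d` is bounded have a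
small intersection, and every countable set of indices is of this kind if `cf λ > ω`; if
`cf λ = ω`, the theorem of Erdős and Rado is used. Positive part (`cf λ = ω`): without a large
rectangle of colour `0`, finite sets of sufficiently closed indices have large intersections.
There are `λ⁺` branches `A_γ` through the tree of the bounded subsets of `λ`, which has only `λ`
nodes; so there are indices `δ` of rank `α` (for every `ρ < α` and every `k`, `δ` is a limit of indices
`γ` of rank `ρ` with `A_γ ∩ λ_k = A_δ ∩ λ_k`). The indices for `ξ ≤ α` are chosen one after the other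
(in an enumeration of `α + 1` in order type `ω` which starts with the top), the new one below the next
larger one, with the same bounded part.
-/

set_option autoImplicit false

namespace Pool.Agent.Results.MP_cf3da8_lc.ExactThreshold

open Cardinal Order Set

universe u

/-- `μ` is a measurable cardinal: uncountable, and some set of cardinality `μ` carries a
`μ`-complete nonprincipal ultrafilter. -/
def IsMeasurableCardinal (μ : Cardinal.{u}) : Prop :=
  ℵ₀ < μ ∧ ∃ X : Type u, #X = μ ∧ ∃ U : Ultrafilter X,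
    (∀ x : X, ({x} : Set X) ∉ U) ∧
    ∀ S : Set (Set X), #S < μ → (∀ s ∈ S, s ∈ U) → ⋂₀ S ∈ U

/-- The asymmetric polarized relation at `(λ⁺, λ)`: every colouring `c : λ⁺ × λ → {0,1}` is
constantly `0` on some `A × B` with `|A| = λ⁺`, `|B| = λ`, or constantly `1` on some `A × B` with
`A` of order type `α` (the range of a strictly increasing map on the ordinals below `α`)
and `|B| = λ`. -/
def Arrow (lam : Cardinal.{u}) (α : Ordinal.{u}) : Prop :=
  ∀ c : Ordinal.{u} → Ordinal.{u} → Fin 2,
    (∃ A B : Set Ordinal.{u},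
      A ⊆ Set.Iio (succ lam).ord ∧ #A = Cardinal.lift.{u + 1} (succ lam) ∧
      B ⊆ Set.Iio lam.ord ∧ #B = Cardinal.lift.{u + 1} lam ∧
      ∀ a ∈ A, ∀ b ∈ B, c a b = 0) ∨
    (∃ (f : Ordinal.{u} → Ordinal.{u}) (B : Set Ordinal.{u}),
      StrictMonoOn f (Set.Iio α) ∧ (∀ ξ < α, f ξ < (succ lam).ord) ∧
      B ⊆ Set.Iio lam.ord ∧ #B = Cardinal.lift.{u + 1} lam ∧
      ∀ ξ < α, ∀ b ∈ B, c (f ξ) b = 1)

theorem result :
    (∀ lam : Cardinal.{u}, ℵ₀ < lam.ord.cof → 2 ^ lam = succ lam →
      ∀ α, Arrow lam α ↔ α < Ordinal.omega0) ∧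
    (∀ lam : Cardinal.{u}, lam.ord.cof = ℵ₀ → ℵ₀ < lam → (∀ ρ < lam, 2 ^ ρ < lam) →
      (∀ α : Ordinal.{u}, α.card ≤ ℵ₀ → Arrow lam α) ∧
      (2 ^ lam = succ lam → ∀ α, (succ (2 ^ ℵ₀ : Cardinal.{u})).ord ≤ α → ¬ Arrow lam α)) ∧
    (∀ lam : Cardinal.{u}, lam.ord.cof < lam →
      (∀ ρ < lam, ∃ μ, ρ < μ ∧ μ < lam ∧ IsMeasurableCardinal μ) →
      2 ^ lam = succ lam → ∃ α < lam.ord, ¬ Arrow lam α) := by
  have h1 : ∀ lam : Cardinal.{u}, ℵ₀ < lam.ord.cof → 2 ^ lam = succ lam →
      ∀ α, Arrow lam α ↔ α < Ordinal.omega0 := by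
    intro lam hcof hch α
    constructor
    · intro h
      by_contra hcon
      exact Pool.Agent.Y588.PR.not_arrow_omega hcof hch
        (Pool.Agent.Y588.PR.Arrow.mono h (not_lt.1 hcon))
    · intro h
      exact Pool.Agent.Y588.PR.arrow_finite (hcof.le.trans (Ordinal.cof_ord_le _)) α h
  have h2 : ∀ lam : Cardinal.{u}, lam.ord.cof = ℵ₀ → ℵ₀ < lam → 2 ^ lam = succ lam →
      ∀ α, (succ (2 ^ ℵ₀ : Cardinal.{u})).ord ≤ α → ¬ Arrow lam α := by
    intro lam hcof hlt hch α hα h
    exact Pool.Agent.Y588.PR.not_arrow_continuum hcof hlt hch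
      (Pool.Agent.Y588.PR.Arrow.mono h hα)
  refine ⟨h1, fun lam hcof hlt hsl => ⟨fun α hα =>
    Pool.Agent.Y588.PR.arrow_countable hlt hcof hsl α hα, h2 lam hcof hlt⟩, ?_⟩
  intro lam hsing hlim hch
  obtain ⟨μ, hμ1, hμ2, hμ⟩ := hlim _ hsing
  have hlt : ℵ₀ < lam := hμ.1.trans hμ2
  have hge : ℵ₀ ≤ lam.ord.cof := by
    rw [Ordinal.aleph0_le_cof]
    exact Cardinal.isSuccLimit_ord hlt.le
  rcases hge.lt_or_eq with hcof | hcof
  · refine ⟨Ordinal.omega0, ?_, fun h => absurd ((h1 lam hcof hch _).1 h) (lt_irrefl _)⟩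
    rw [← Cardinal.ord_aleph0]
    exact Cardinal.ord_lt_ord.2 hlt
  · refine ⟨(succ (2 ^ ℵ₀ : Cardinal.{u})).ord, ?_, h2 lam hcof.symm hlt hch _ le_rfl⟩
    refine Cardinal.ord_lt_ord.2 ?_
    have h3 : 2 ^ (ℵ₀ : Cardinal.{u}) < μ :=
      Pool.Agent.Y588.PR.IsMeasurableCardinal.two_power_lt hμ _ hμ.1
    exact (Order.succ_le_of_lt h3).trans_lt hμ2

end Pool.Agent.Results.MP_cf3da8_lc.ExactThreshold
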